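import Pool.Agent.H990R2.Ent.Asym

open Finset Filter Topology

namespace Pool.Agent.Results.MP_c130e3_pr.EntropyNoEquivalence

noncomputable section

variable {V : Type*} [Fintype V] [DecidableEq V]

/-- `Q` is the generator of an irreducible continuous-time Markov chain on the finite set `V`,
reversible with respect to the probability measure `π` (which is then its stationary
distribution). -/
structure IsReversibleChain (Q : Matrix V V ℝ) (π : V → ℝ) : Prop where
  offdiag : ∀ x y, x ≠ y → 0 ≤ Q x y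
  row : ∀ x, ∑ y, Q x y = 0
  irreducible : ∀ x y, Relation.ReflTransGen (fun a b => a ≠ b ∧ 0 < Q a b) x y
  pos : ∀ x, 0 < π x
  total : ∑ x, π x = 1
  reversible : ∀ x y, π x * Q x y = π y * Q y x

/-- The heat kernel `H_t = exp (t Q)`. -/
def heat (Q : Matrix V V ℝ) (t : ℝ) : Matrix V V ℝ := NormedSpace.exp (t • Q)

/-- Relative entropy of `μ` with respect to `π`. -/
def relEnt (μ π : V → ℝ) : ℝ := ∑ y, μ y * Real.log (μ y / π y)

/-- Worst-case relative entropy at time `t`. -/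
def dEnt (Q : Matrix V V ℝ) (π : V → ℝ) (t : ℝ) : ℝ :=
  ⨆ x : V, relEnt (fun y => heat Q t x y) π

/-- Mixing time for the worst-case relative entropy. -/
def tmix (Q : Matrix V V ℝ) (π : V → ℝ) (ε : ℝ) : ℝ := sInf {t : ℝ | 0 ≤ t ∧ dEnt Q π t ≤ ε}

/-- Variance under `π`. -/
def variance (π f : V → ℝ) : ℝ := ∑ x, π x * f x ^ 2 - (∑ x, π x * f x) ^ 2

/-- Dirichlet form. -/
def dirichlet (Q : Matrix V V ℝ) (π f : V → ℝ) : ℝ :=
  (1 / 2) * ∑ x, ∑ y, π x * Q x y * (f x - f y) ^ 2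

/-- Spectral gap (variational formula). -/
def gap (Q : Matrix V V ℝ) (π : V → ℝ) : ℝ :=
  sInf {r : ℝ | ∃ f : V → ℝ, variance π f ≠ 0 ∧ r = dirichlet Q π f / variance π f}

section conditions

/-- The supremum level `M = limsup_n d_n(0)` in `[0, ∞]`. -/
def levelM (d : ℕ → ℝ → ℝ) : EReal := limsup (fun n => ((d n 0 : ℝ) : EReal)) atTop

/-- Condition (1), the product condition. -/
def Cond1 (lam t : ℕ → ℝ) : Prop := Tendsto (fun n => lam n * t n) atTop atTop

/-- Condition (2): cutoff at time `t n`. -/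
def Cond2 (d : ℕ → ℝ → ℝ) (t : ℕ → ℝ) : Prop :=
  ∀ δ : ℝ, 0 < δ → δ < 1 →
    Tendsto (fun n => ((d n ((1 + δ) * t n) : ℝ) : EReal)) atTop (𝓝 0) ∧
    Tendsto (fun n => ((d n ((1 - δ) * t n) : ℝ) : EReal)) atTop (𝓝 (levelM d))

/-- `(t n, b n)` cutoff. -/
def WindowCutoff (d : ℕ → ℝ → ℝ) (t b : ℕ → ℝ) : Prop :=
  Tendsto (fun n => b n / t n) atTop (𝓝 0) ∧
  Tendsto (fun c : ℝ => limsup (fun n => ((d n (t n + c * b n) : ℝ) : EReal)) atTop) atTop (𝓝 0) ∧
  Tendsto (fun c : ℝ => liminf (fun n => ((d n (t n + c * b n) : ℝ) : EReal)) atTop) atBot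
    (𝓝 (levelM d))

/-- Condition (3): `(t n, (lam n)⁻¹)` cutoff. -/
def Cond3 (d : ℕ → ℝ → ℝ) (lam t : ℕ → ℝ) : Prop := WindowCutoff d t (fun n => (lam n)⁻¹)

end conditions

open Pool.Agent.H990R2 Pool.Agent.H990R2.Ent

theorem heat_eq (K : ℕ) (t : ℝ) : heat (QQ K) t = CT.H (PP K) t := by
  rw [heat, CT.H, PP, add_sub_cancel_left]

theorem relEnt_eq (K : ℕ) (t : ℝ) (x : Fin (10 * K + 1)) :
    relEnt (fun y => heat (QQ K) t x y) (pp K) = ent (PP K) (pp K) t x := by
  rw [relEnt, ent, heat_eq]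

theorem isChain (K : ℕ) (hK : 1 ≤ K) : IsReversibleChain (QQ K) (pp K) where
  offdiag := QQ_off K hK
  row := QQ_row K
  irreducible := irred' K hK
  pos := pp_pos K hK
  total := pp_sum K hK
  reversible := pp_rev K hK

theorem le_dEnt (K : ℕ) (t : ℝ) (x : Fin (10 * K + 1)) :
    ent (PP K) (pp K) t x ≤ dEnt (QQ K) (pp K) t := by
  rw [← relEnt_eq]
  exact le_ciSup (f := fun x => relEnt (fun y => heat (QQ K) t x y) (pp K))
    (Set.finite_range _).bddAbove x

theorem dEnt_le (K : ℕ) (t C : ℝ) (h : ∀ x, ent (PP K) (pp K) t x ≤ C) :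
    dEnt (QQ K) (pp K) t ≤ C := by
  refine ciSup_le fun x => ?_
  rw [relEnt_eq]
  exact h x

theorem gap_ge (K : ℕ) (hK : 2 ≤ K) : 1 / 20 ≤ gap (QQ K) (pp K) := by
  have hK1 : 1 ≤ K := by omega
  have hvar : ∀ f : Fin (10 * K + 1) → ℝ, 0 ≤ variance (pp K) f := by
    intro f
    have e : variance (pp K) f = ∑ x, pp K x * (f x - ∑ x, pp K x * f x) ^ 2 := by
      set m := ∑ x, pp K x * f x with hm
      have : ∀ x, pp K x * (f x - m) ^ 2 = pp K x * f x ^ 2 - 2 * m * (pp K x * f x) +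
          m ^ 2 * pp K x := fun x => by ring
      simp only [this]
      rw [Finset.sum_add_distrib, Finset.sum_sub_distrib, ← Finset.mul_sum, ← Finset.mul_sum,
        pp_sum K hK1, ← hm, variance, ← hm]
      ring
    rw [e]
    exact Finset.sum_nonneg fun x _ => mul_nonneg (pp_pos K hK1 x).le (sq_nonneg _)
  rw [gap]
  apply le_csInf
  · set f : Fin (10 * K + 1) → ℝ := Pi.single 0 1 with hf
    refine ⟨_, f, ?_, rfl⟩
    have h1 : variance (pp K) f = pp K 0 - pp K 0 ^ 2 := by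
      rw [variance, hf]
      have e1 : ∀ x, pp K x * (Pi.single 0 1 : Fin (10 * K + 1) → ℝ) x ^ 2 =
          if x = 0 then pp K 0 else 0 := by
        intro x
        rw [Pi.single_apply]
        split_ifs with h
        · rw [h]; ring
        · ring
      have e2 : ∀ x, pp K x * (Pi.single 0 1 : Fin (10 * K + 1) → ℝ) x =
          if x = 0 then pp K 0 else 0 := by
        intro x
        rw [Pi.single_apply]
        split_ifs with h
        · rw [h]; ring
        · ring
      simp only [e1, e2]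
      simp
    rw [h1]
    have h2 := pp_pos K hK1 0
    have h3 : pp K 0 < 1 := by
      have h4 := pp_sum K hK1
      have h5 : (0 : Fin (10 * K + 1)) ≠ Fin.last (10 * K) := by
        intro h
        have := congrArg Fin.val h
        simp at this
        omega
      have h6 : pp K 0 + pp K (Fin.last (10 * K)) ≤ ∑ i, pp K i := by
        rw [← Finset.sum_pair h5]
        exact Finset.sum_le_sum_of_subset_of_nonneg (Finset.subset_univ _)
          fun i _ _ => (pp_pos K hK1 i).le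
      have := pp_pos K hK1 (Fin.last (10 * K))
      linarith
    nlinarith
  · rintro r ⟨f, hf, rfl⟩
    have h1 := gap_low K hK f
    have h2 : 0 < variance (pp K) f := lt_of_le_of_ne (hvar f) hf.symm
    rw [le_div_iff₀ h2]
    exact h1

theorem tmix_ge_ev : ∀ᶠ K : ℕ in atTop, ∀ ε : ℝ, 0 < ε → ε ≤ 1 →
    15 * (K : ℝ) ≤ tmix (QQ K) (pp K) ε := by
  filter_upwards [ent_low_ev, ent_conv_ev] with K h1 h2 ε hε0 hε1
  rw [tmix]
  apply le_csInf
  · obtain ⟨t, ht0, ht⟩ := h2 ε hε0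
    exact ⟨t, ht0, dEnt_le K t ε ht⟩
  · rintro t ⟨ht0, ht⟩
    by_contra hlt
    push Not at hlt
    have h3 := h1 t ht0 hlt.le
    have h4 := le_dEnt K t 0
    linarith

theorem dEnt_up_ev : ∀ᶠ K : ℕ in atTop, ∀ t : ℝ, 12 * K ≤ t → dEnt (QQ K) (pp K) t ≤ 500 := by
  filter_upwards [ent_up_ev] with K h t ht
  exact dEnt_le K t 500 (h t ht)

theorem dEnt_zero_tendsto : Tendsto (fun K : ℕ => dEnt (QQ K) (pp K) 0) atTop atTop := by
  have h1 := (tends (1 / 16) (by norm_num) (by norm_num) 3).const_mul (11 : ℝ)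
  rw [mul_zero] at h1
  refine tendsto_atTop_mono' atTop (f₁ := fun K : ℕ => (K : ℝ) - 2) ?_ ?_
  · filter_upwards [h1.eventually (gt_mem_nhds (show (0 : ℝ) < 1 by norm_num)),
      eventually_ge_atTop 2] with K hK hK2
    have hK2' : (2 : ℝ) ≤ K := by exact_mod_cast hK2
    have h2 := ent_zero_lb K (by omega)
    have e4 : (K : ℝ) ^ 3 / rr K = (K : ℝ) ^ 3 * (1 / 16) ^ K := by
      rw [rr, one_div, inv_pow]; rfl
    rw [e4] at h2
    have h3 := le_dEnt K 0 0
    have h4 := log16_lb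
    have h5 : (K : ℝ) - 1 ≤ ((K : ℝ) - 1) * (K * Real.log 16) := by
      have : 1 ≤ (K : ℝ) * Real.log 16 := by nlinarith
      nlinarith
    linarith
  · exact tendsto_atTop_add_const_right _ _ tendsto_natCast_atTop_atTop

/-- Disproof of Q2: a family of irreducible reversible chains with spectral gap bounded below, with
`M = ∞`, such that for every `ε ∈ (0,1]` condition (1) holds but (2) and (3) fail for the
worst-case relative entropy. -/
theorem result :
    ∃ (N : ℕ → ℕ) (Q : ∀ n, Matrix (Fin (N n + 1)) (Fin (N n + 1)) ℝ)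
      (π : ∀ n, Fin (N n + 1) → ℝ),
      (∀ n, IsReversibleChain (Q n) (π n)) ∧
      levelM (fun n => dEnt (Q n) (π n)) = ⊤ ∧
      ∀ ε : ℝ, 0 < ε → ε ≤ 1 →
        Cond1 (fun n => gap (Q n) (π n)) (fun n => tmix (Q n) (π n) ε) ∧
        ¬ Cond2 (fun n => dEnt (Q n) (π n)) (fun n => tmix (Q n) (π n) ε) ∧
        ¬ Cond3 (fun n => dEnt (Q n) (π n)) (fun n => gap (Q n) (π n))
            (fun n => tmix (Q n) (π n) ε) := by
  have shift : Tendsto (fun n : ℕ => n + 2) atTop atTop := tendsto_add_atTop_nat 2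
  have hM : levelM (fun n => dEnt (QQ (n + 2)) (pp (n + 2))) = ⊤ := by
    rw [levelM]
    have : Tendsto (fun n : ℕ => ((dEnt (QQ (n + 2)) (pp (n + 2)) 0 : ℝ) : EReal)) atTop
        (𝓝 ⊤) := EReal.tendsto_coe_nhds_top_iff.mpr (dEnt_zero_tendsto.comp shift)
    exact this.limsup_eq
  refine ⟨fun n => 10 * (n + 2), fun n => QQ (n + 2), fun n => pp (n + 2),
    fun n => isChain (n + 2) (by omega), hM, fun ε hε0 hε1 => ?_⟩
  have htm : ∀ᶠ n : ℕ in atTop, 15 * ((n + 2 : ℕ) : ℝ) ≤ tmix (QQ (n + 2)) (pp (n + 2)) ε :=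
    (shift.eventually tmix_ge_ev).mono fun n h => h ε hε0 hε1
  have hup := shift.eventually dEnt_up_ev
  have hKinf : Tendsto (fun n : ℕ => ((n + 2 : ℕ) : ℝ)) atTop atTop :=
    tendsto_natCast_atTop_atTop.comp shift
  refine ⟨?_, ?_, ?_⟩
  · refine tendsto_atTop_mono' atTop (f₁ := fun n : ℕ => (1 / 20 : ℝ) * (15 * ((n + 2 : ℕ) : ℝ)))
      ?_ ?_
    · filter_upwards [htm] with n hn
      have hg := gap_ge (n + 2) (by omega)
      have h0 : (0 : ℝ) ≤ 15 * ((n + 2 : ℕ) : ℝ) := by positivity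
      exact mul_le_mul hg hn h0 (by linarith)
    · exact (hKinf.const_mul_atTop (by norm_num : (0 : ℝ) < 15)).const_mul_atTop (by norm_num)
  · intro hc
    have h2 := (hc (1 / 10) (by norm_num) (by norm_num)).2
    rw [hM] at h2
    have h3 := h2.eventually (lt_mem_nhds (show ((500 : ℝ) : EReal) < ⊤ from EReal.coe_lt_top _))
    obtain ⟨n, hn1, hn2, hn3⟩ := (h3.and (htm.and hup)).exists
    have h4 := hn3 ((1 - 1 / 10) * tmix (QQ (n + 2)) (pp (n + 2)) ε) (by
      have : (0 : ℝ) ≤ ((n + 2 : ℕ) : ℝ) := by positivity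
      linarith)
    have h5 := EReal.coe_lt_coe_iff.mp hn1
    simp only at h5
    linarith
  · intro hc
    have h2 := hc.2.2
    rw [hM] at h2
    have h3 := h2.eventually (lt_mem_nhds (show ((500 : ℝ) : EReal) < ⊤ from EReal.coe_lt_top _))
    obtain ⟨c, hc1⟩ := h3.exists
    have h4 : ∀ᶠ n : ℕ in atTop, ((dEnt (QQ (n + 2)) (pp (n + 2))
        (tmix (QQ (n + 2)) (pp (n + 2)) ε + c * (gap (QQ (n + 2)) (pp (n + 2)))⁻¹) : ℝ) : EReal) ≤
        ((500 : ℝ) : EReal) := by
      filter_upwards [htm, hup, hKinf.eventually (eventually_ge_atTop (20 * |c|))] with n h5 h6 h7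
      rw [EReal.coe_le_coe_iff]
      apply h6
      have hg := gap_ge (n + 2) (by omega)
      have h8 : (gap (QQ (n + 2)) (pp (n + 2)))⁻¹ ≤ 20 := by
        rw [inv_le_comm₀ (by linarith) (by norm_num)]
        linarith
      have h9 : 0 < (gap (QQ (n + 2)) (pp (n + 2)))⁻¹ := by
        apply inv_pos.mpr; linarith
      have h10 : -(20 * |c|) ≤ c * (gap (QQ (n + 2)) (pp (n + 2)))⁻¹ := by
        have h11 := neg_abs_le c
        have h12 := abs_nonneg c
        nlinarith
      linarith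
    have h5 : liminf (fun n : ℕ => ((dEnt (QQ (n + 2)) (pp (n + 2))
        (tmix (QQ (n + 2)) (pp (n + 2)) ε + c * (gap (QQ (n + 2)) (pp (n + 2)))⁻¹) : ℝ) : EReal))
        atTop ≤ ((500 : ℝ) : EReal) := by
      refine (liminf_le_liminf h4).trans ?_
      exact le_of_eq (Filter.liminf_const _)
    exact absurd h5 (not_le.mpr hc1)

end

end Pool.Agent.Results.MP_c130e3_pr.EntropyNoEquivalence
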